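import Mathlib

set_option autoImplicit false

/-!
# The First-Fit anti-Ramsey number is at most `(τ + 1) k / 2`

Let `x_1, ..., x_τ` be a minimum vertex cover of `H`, assign every edge of `H` to one of its
endpoints in the cover, and let `d_i` be the number of edges assigned to `x_i`, where
`d_1 ≤ ... ≤ d_τ`.  Give the edges of `H` the colours `1, ..., k`, block after block: the edges
assigned to `x_i` get the colours from `d_1 + ... + d_{i-1} + 1` to `D_i = d_1 + ... + d_i`.  Add
pendant edges so that `x_i` sees every colour `1, ..., D_i`.  In the resulting coloured graph every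
edge of colour `c` has a neighbouring edge of each colour less than `c`, so that Builder can build
it colour after colour; it has at most `∑ D_i ≤ (τ + 1) k / 2` edges.
-/

namespace Pool.Agent.Results.MP_071c0d_co.HalvedBound

open Finset

universe u

/-- The First-Fit colour of a new edge `e`, given the current coloured graph. A coloured graph on
the vertex set `ℕ` is given by `c : Sym2 ℕ → ℕ`, where `c e = 0` means that `e` is not an edge, and
`c e = i > 0` means that `e` is an edge of colour `i`. The colour of the new edge is the smallest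
positive integer which is not the colour of an edge sharing an endpoint with `e`. -/
noncomputable def ffColour (c : Sym2 ℕ → ℕ) (e : Sym2 ℕ) : ℕ :=
  sInf {i | 0 < i ∧ ∀ f : Sym2 ℕ, c f = i → ∀ v, v ∈ e → v ∉ f}

open Classical in
/-- `Reach t c`: Builder can arrive at the coloured graph `c` by adding `t` edges one by one to the
empty graph; every new edge is a pair of distinct vertices which is not yet an edge. -/
inductive Reach : ℕ → (Sym2 ℕ → ℕ) → Prop
  | zero : Reach 0 (fun _ => 0)
  | add (t : ℕ) (c : Sym2 ℕ → ℕ) (e : Sym2 ℕ) : Reach t c → ¬ e.IsDiag → c e = 0 →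
      Reach (t + 1) (Function.update c e (ffColour c e))

/-- The coloured graph `c` contains a rainbow copy of `H`: there is an injective map from the
vertices of `H` to the vertices such that the images of the edges of `H` are edges of pairwise
distinct colours. -/
def HasRainbowCopy {W : Type u} (H : SimpleGraph W) (c : Sym2 ℕ → ℕ) : Prop :=
  ∃ f : W → ℕ, Function.Injective f ∧ (∀ e ∈ H.edgeSet, c (e.map f) ≠ 0) ∧
    ∀ e ∈ H.edgeSet, ∀ e' ∈ H.edgeSet, c (e.map f) = c (e'.map f) → e = e'

/-- The First-Fit anti-Ramsey number: the least `t` such that Builder can ensure that the coloured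
graph contains a rainbow copy of `H` after `t` edges. -/
noncomputable def ARFF {W : Type u} (H : SimpleGraph W) : ℕ :=
  sInf {t | ∃ c, Reach t c ∧ HasRainbowCopy H c}

/-! ### A final coloured graph with the First-Fit property can be built -/

lemma reach_of_ff : ∀ (n : ℕ) (E : Finset (Sym2 ℕ)) (c : Sym2 ℕ → ℕ), E.card = n →
    (∀ e, c e ≠ 0 ↔ e ∈ E) → (∀ e ∈ E, ¬ e.IsDiag) →
    (∀ e ∈ E, ∀ f ∈ E, c e = c f → ∀ v, v ∈ e → v ∈ f → e = f) →
    (∀ e ∈ E, ∀ i, 0 < i → i < c e → ∃ f ∈ E, c f = i ∧ ∃ v, v ∈ e ∧ v ∈ f) →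
    Reach n c := by
  classical
  intro n
  induction n with
  | zero =>
    intro E c hE hc _ _ _
    rw [Finset.card_eq_zero] at hE
    subst hE
    have : c = fun _ => 0 := by
      funext e
      by_contra h
      exact absurd ((hc e).1 h) (by simp)
    rw [this]
    exact Reach.zero
  | succ n ih =>
    intro E c hE hc hdiag hprop hff
    have hne : E.Nonempty := by
      rw [← Finset.card_pos, hE]; omega
    obtain ⟨e, heE, hmax⟩ := E.exists_max_image c hne
    have hce : c e ≠ 0 := (hc e).2 heE
    set c' := Function.update c e 0 with hc'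
    have h1 : Reach n c' := by
      apply ih (E.erase e) c'
      · rw [Finset.card_erase_of_mem heE, hE]; rfl
      · intro f
        by_cases hf : f = e
        · subst hf; simp [hc']
        · rw [hc', Function.update_of_ne hf, hc f, Finset.mem_erase]
          simp [hf]
      · intro f hf
        exact hdiag f (Finset.mem_of_mem_erase hf)
      · intro f hf g hg hfg v hvf hvg
        have hf' := Finset.ne_of_mem_erase hf
        have hg' := Finset.ne_of_mem_erase hg
        rw [hc', Function.update_of_ne hf', Function.update_of_ne hg'] at hfg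
        exact hprop f (Finset.mem_of_mem_erase hf) g (Finset.mem_of_mem_erase hg) hfg v hvf hvg
      · intro f hf i hi hic
        have hf' := Finset.ne_of_mem_erase hf
        rw [hc', Function.update_of_ne hf'] at hic
        obtain ⟨g, hg, hgi, v, hvf, hvg⟩ := hff f (Finset.mem_of_mem_erase hf) i hi hic
        have hge : g ≠ e := by
          rintro rfl
          have := hmax f (Finset.mem_of_mem_erase hf)
          omega
        refine ⟨g, Finset.mem_erase.2 ⟨hge, hg⟩, ?_, v, hvf, hvg⟩
        rw [hc', Function.update_of_ne hge]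
        exact hgi
    have h2 : ffColour c' e = c e := by
      unfold ffColour
      apply le_antisymm
      · apply Nat.sInf_le
        refine ⟨Nat.pos_of_ne_zero hce, ?_⟩
        intro f hf v hve hvf
        by_cases hfe : f = e
        · subst hfe
          rw [hc', Function.update_self] at hf
          exact hce hf.symm
        · rw [hc', Function.update_of_ne hfe] at hf
          have hfE : f ∈ E := (hc f).1 (by rw [hf]; exact hce)
          exact hfe (hprop f hfE e heE hf v hvf hve)
      · apply le_csInf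
        · refine ⟨c e, Nat.pos_of_ne_zero hce, ?_⟩
          intro f hf v hve hvf
          by_cases hfe : f = e
          · subst hfe
            rw [hc', Function.update_self] at hf
            exact hce hf.symm
          · rw [hc', Function.update_of_ne hfe] at hf
            have hfE : f ∈ E := (hc f).1 (by rw [hf]; exact hce)
            exact hfe (hprop f hfE e heE hf v hvf hve)
        · rintro i ⟨hi, hi2⟩
          by_contra hlt
          obtain ⟨g, hg, hgi, v, hve, hvg⟩ := hff e heE i hi (not_le.1 hlt)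
          have hge : g ≠ e := by
            rintro rfl
            omega
          refine hi2 g ?_ v hve hvg
          rw [hc', Function.update_of_ne hge]
          exact hgi
    have h3 := Reach.add n c' e h1 (hdiag e heE) (by rw [hc', Function.update_self])
    rw [h2, hc', Function.update_idem, Function.update_eq_self] at h3
    exact h3

/-- Transfer to an arbitrary countable vertex type and to indexed edges. -/
lemma reach_of_index {α ι : Type u} [Countable α] [Fintype ι] (ed : ι → Sym2 α)
    (hed : Function.Injective ed) (cl : ι → ℕ) (hpos : ∀ i, 0 < cl i)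
    (hdiag : ∀ i, ¬ (ed i).IsDiag)
    (hprop : ∀ i j, cl i = cl j → ∀ v, v ∈ ed i → v ∈ ed j → i = j)
    (hff : ∀ i m, 0 < m → m < cl i → ∃ j, cl j = m ∧ ∃ v, v ∈ ed i ∧ v ∈ ed j) :
    ∃ (g : α → ℕ) (c : Sym2 ℕ → ℕ), Function.Injective g ∧ Reach (Fintype.card ι) c ∧
      ∀ i, c ((ed i).map g) = cl i := by
  classical
  obtain ⟨g, hg⟩ := exists_injective_nat α
  have hG : Function.Injective (fun i => Sym2.map g (ed i)) :=
    (Sym2.map.injective hg).comp hed
  set c : Sym2 ℕ → ℕ := Function.extend (fun i => Sym2.map g (ed i)) cl (fun _ => 0) with hc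
  have hcC : ∀ i, c ((ed i).map g) = cl i := fun i => hG.extend_apply cl _ i
  refine ⟨g, c, hg, ?_, hcC⟩
  apply reach_of_ff (Fintype.card ι) (univ.image (fun i => Sym2.map g (ed i))) c
  · rw [Finset.card_image_of_injective _ hG, Finset.card_univ]
  · intro e
    by_cases he : ∃ i, Sym2.map g (ed i) = e
    · obtain ⟨i, rfl⟩ := he
      rw [hcC]
      constructor
      · intro _; exact Finset.mem_image_of_mem _ (Finset.mem_univ i)
      · intro _; exact (hpos i).ne'
    · rw [hc, Function.extend_apply' _ _ _ he]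
      constructor
      · intro h; exact absurd rfl h
      · intro h
        obtain ⟨i, -, h'⟩ := Finset.mem_image.1 h
        exact absurd ⟨i, h'⟩ he
  · intro e he
    obtain ⟨i, -, rfl⟩ := Finset.mem_image.1 he
    have := hdiag i
    rwa [Sym2.isDiag_map hg]
  · intro e he f hf hef v hve hvf
    obtain ⟨i, -, rfl⟩ := Finset.mem_image.1 he
    obtain ⟨j, -, rfl⟩ := Finset.mem_image.1 hf
    rw [hcC, hcC] at hef
    rw [Sym2.mem_map] at hve hvf
    obtain ⟨a, ha, rfl⟩ := hve
    obtain ⟨b, hb, hab⟩ := hvf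
    rw [hg hab] at hb
    rw [hprop i j hef a ha hb]
  · intro e he m hm hme
    obtain ⟨i, -, rfl⟩ := Finset.mem_image.1 he
    rw [hcC] at hme
    obtain ⟨j, hj, v, hv1, hv2⟩ := hff i m hm hme
    refine ⟨(ed j).map g, Finset.mem_image_of_mem _ (Finset.mem_univ j), by rw [hcC, hj], g v,
      ?_, ?_⟩
    · exact Sym2.mem_map.2 ⟨v, hv1, rfl⟩
    · exact Sym2.mem_map.2 ⟨v, hv2, rfl⟩

/-! ### The construction -/

/-- The sum of the partial sums in increasing order is at most `(|S| + 1) / 2` times the sum. -/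
lemma double_sum {W : Type u} (S : Finset W) (d pos : W → ℕ) (hinj : Function.Injective pos)
    (hmono : ∀ x y, pos y ≤ pos x → d y ≤ d x) :
    2 * ∑ x ∈ S, ∑ y ∈ S, (if pos y ≤ pos x then d y else 0) ≤ (S.card + 1) * ∑ y ∈ S, d y := by
  classical
  set A := ∑ x ∈ S, ∑ y ∈ S, (if pos y ≤ pos x then d y else 0) with hA
  set B := ∑ x ∈ S, ∑ y ∈ S, (if pos x ≤ pos y then d y else 0) with hB
  have hAB : A ≤ B := by
    have : B = ∑ x ∈ S, ∑ y ∈ S, (if pos y ≤ pos x then d x else 0) := by
      rw [hB, Finset.sum_comm]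
    rw [this, hA]
    apply Finset.sum_le_sum
    intro x _
    apply Finset.sum_le_sum
    intro y _
    split_ifs with h
    · exact hmono x y h
    · exact le_refl _
  have hsum : A + B = (S.card + 1) * ∑ y ∈ S, d y := by
    rw [hA, hB, ← Finset.sum_add_distrib]
    have h1 : ∀ x ∈ S, (∑ y ∈ S, (if pos y ≤ pos x then d y else 0)) +
        (∑ y ∈ S, (if pos x ≤ pos y then d y else 0)) = (∑ y ∈ S, d y) + d x := by
      intro x hx
      rw [← Finset.sum_add_distrib]
      have h2 : ∀ y ∈ S, ((if pos y ≤ pos x then d y else 0) + (if pos x ≤ pos y then d y else 0)) =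
          d y + (if y = x then d y else 0) := by
        intro y _
        by_cases hxy : y = x
        · subst hxy; simp
        · have hne : pos y ≠ pos x := fun h => hxy (hinj h)
          rcases lt_or_gt_of_ne hne with h | h
          · simp [h.le, not_le.2 h, hxy]
          · simp [h.le, not_le.2 h, hxy]
      rw [Finset.sum_congr rfl h2, Finset.sum_add_distrib, Finset.sum_ite_eq' S x]
      simp [hx]
    rw [Finset.sum_congr rfl h1, Finset.sum_add_distrib, Finset.sum_const, smul_eq_mul]
    ring
  omega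

/-- Builder can force a rainbow copy of `H` with at most `(|S| + 1) k / 2` edges, for every vertex
cover `S`. -/
lemma construction {W : Type u} [Fintype W] (H : SimpleGraph W) (S : Finset W)
    (hS : H.IsVertexCover (S : Set W)) :
    ∃ t c, Reach t c ∧ HasRainbowCopy H c ∧ 2 * t ≤ (S.card + 1) * H.edgeSet.ncard := by
  classical
  have ha : ∀ e : Sym2 W, ∃ x, e ∈ H.edgeSet → x ∈ S ∧ x ∈ e := by
    intro e
    by_cases he : e ∈ H.edgeSet
    · induction e with
      | _ u v =>
        rcases hS he with h | h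
        · exact ⟨u, fun _ => ⟨h, Sym2.mem_mk_left u v⟩⟩
        · exact ⟨v, fun _ => ⟨h, Sym2.mem_mk_right u v⟩⟩
    · induction e with
      | _ u v => exact ⟨u, fun h => absurd h he⟩
  choose a ha using ha
  set E := H.edgeFinset with hE
  have haE : ∀ e ∈ E, a e ∈ S ∧ a e ∈ e := fun e he => ha e (SimpleGraph.mem_edgeFinset.1 he)
  let d : W → ℕ := fun x => (E.filter (fun e => a e = x)).card
  let eW := Fintype.equivFin W
  let eE := Fintype.equivFin (Sym2 W)
  let pos : W → ℕ := fun x => d x * Fintype.card W + eW x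
  have hposinj : Function.Injective pos := by
    intro x y hxy
    have h1 : (pos x) % Fintype.card W = (pos y) % Fintype.card W := by rw [hxy]
    simp only [pos, Nat.mul_add_mod_self_right, Nat.mod_eq_of_lt (eW x).2,
      Nat.mod_eq_of_lt (eW y).2] at h1
    exact eW.injective (Fin.ext h1)
  have hposmono : ∀ x y, pos y ≤ pos x → d y ≤ d x := by
    intro x y hxy
    by_contra hlt
    have h1 : d x + 1 ≤ d y := by omega
    have h2 : (d x + 1) * Fintype.card W ≤ d y * Fintype.card W := Nat.mul_le_mul_right _ h1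
    have h3 := (eW x).2
    simp only [pos] at hxy
    rw [add_mul, one_mul] at h2
    omega
  let κ : Sym2 W → ℕ := fun e => pos (a e) * Fintype.card (Sym2 W) + eE e
  have hκinj : Function.Injective κ := by
    intro x y hxy
    have h1 : (κ x) % Fintype.card (Sym2 W) = (κ y) % Fintype.card (Sym2 W) := by rw [hxy]
    simp only [κ, Nat.mul_add_mod_self_right, Nat.mod_eq_of_lt (eE x).2,
      Nat.mod_eq_of_lt (eE y).2] at h1
    exact eE.injective (Fin.ext h1)
  have hκmono : ∀ e f, κ f ≤ κ e → pos (a f) ≤ pos (a e) := by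
    intro x y hxy
    by_contra hlt
    have h1 : pos (a x) + 1 ≤ pos (a y) := by omega
    have h2 : (pos (a x) + 1) * Fintype.card (Sym2 W) ≤ pos (a y) * Fintype.card (Sym2 W) :=
      Nat.mul_le_mul_right _ h1
    have h3 := (eE x).2
    simp only [κ] at hxy
    rw [add_mul, one_mul] at h2
    omega
  let col : Sym2 W → ℕ := fun e => (E.filter (fun f => κ f ≤ κ e)).card
  have hcolpos : ∀ e ∈ E, 0 < col e := fun e he =>
    Finset.card_pos.2 ⟨e, Finset.mem_filter.2 ⟨he, le_refl _⟩⟩
  have hcolinj : ∀ e ∈ E, ∀ f ∈ E, col e = col f → e = f := by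
    have key : ∀ e ∈ E, ∀ f ∈ E, κ e < κ f → col e < col f := by
      intro e he f hf hlt
      apply Finset.card_lt_card
      rw [Finset.ssubset_iff_of_subset]
      · refine ⟨f, Finset.mem_filter.2 ⟨hf, le_refl _⟩, ?_⟩
        intro h
        exact absurd (Finset.mem_filter.1 h).2 (not_le.2 hlt)
      · intro x hx
        rw [Finset.mem_filter] at hx ⊢
        exact ⟨hx.1, hx.2.trans hlt.le⟩
    intro e he f hf hef
    rcases lt_trichotomy (κ e) (κ f) with h | h | h
    · have := key e he f hf h; omega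
    · exact hκinj h
    · have := key f hf e he h; omega
  let D : W → ℕ := fun x => (E.filter (fun f => pos (a f) ≤ pos x)).card
  have hcolD : ∀ e ∈ E, col e ≤ D (a e) := by
    intro e _
    apply Finset.card_le_card
    intro f hf
    rw [Finset.mem_filter] at hf ⊢
    exact ⟨hf.1, hκmono e f hf.2⟩
  -- pendant edges
  let P : Finset (W × ℕ) := (S ×ˢ Finset.range (E.card + 1)).filter
    (fun q => 0 < q.2 ∧ q.2 ≤ D q.1 ∧ ∀ e ∈ E, q.1 ∈ e → col e ≠ q.2)
  have hP : ∀ q : W × ℕ, q ∈ P ↔ q.1 ∈ S ∧ 0 < q.2 ∧ q.2 ≤ D q.1 ∧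
      ∀ e ∈ E, q.1 ∈ e → col e ≠ q.2 := by
    intro q
    simp only [P, Finset.mem_filter, Finset.mem_product, Finset.mem_range]
    constructor
    · rintro ⟨⟨h1, -⟩, h2⟩; exact ⟨h1, h2⟩
    · rintro ⟨h1, h2, h3, h4⟩
      refine ⟨⟨h1, ?_⟩, h2, h3, h4⟩
      have : D q.1 ≤ E.card := Finset.card_le_card (Finset.filter_subset _ _)
      omega
  let ed : E ⊕ P → Sym2 (W ⊕ W × ℕ) :=
    Sum.elim (fun e => Sym2.map Sum.inl e.1) (fun q => s(Sum.inl q.1.1, Sum.inr q.1))
  let cl : E ⊕ P → ℕ := Sum.elim (fun e => col e.1) (fun q => q.1.2)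
  have mem1 : ∀ (e : E) (v : W ⊕ W × ℕ), v ∈ ed (Sum.inl e) ↔ ∃ x, x ∈ e.1 ∧ Sum.inl x = v := by
    intro e v
    exact Sym2.mem_map
  have mem2 : ∀ (q : P) (v : W ⊕ W × ℕ), v ∈ ed (Sum.inr q) ↔
      v = Sum.inl q.1.1 ∨ v = Sum.inr q.1 := by
    intro q v
    exact Sym2.mem_iff
  have hed : Function.Injective ed := by
    rintro (e | q) (f | r) h
    · have h1 : Sym2.map (Sum.inl : W → W ⊕ W × ℕ) e.1 = Sym2.map Sum.inl f.1 := h
      rw [Subtype.ext (Sym2.map.injective Sum.inl_injective h1)]
    · exfalso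
      have h1 : (Sum.inr r.1 : W ⊕ W × ℕ) ∈ ed (Sum.inl e) := by
        rw [h]; exact (mem2 r _).2 (Or.inr rfl)
      obtain ⟨x, -, h2⟩ := (mem1 e _).1 h1
      exact Sum.inl_ne_inr h2
    · exfalso
      have h1 : (Sum.inr q.1 : W ⊕ W × ℕ) ∈ ed (Sum.inl f) := by
        rw [← h]; exact (mem2 q _).2 (Or.inr rfl)
      obtain ⟨x, -, h2⟩ := (mem1 f _).1 h1
      exact Sum.inl_ne_inr h2
    · have h1 : (Sum.inr q.1 : W ⊕ W × ℕ) ∈ ed (Sum.inr r) := by
        rw [← h]; exact (mem2 q _).2 (Or.inr rfl)
      rcases (mem2 r _).1 h1 with h2 | h2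
      · exact absurd h2 Sum.inr_ne_inl
      · rw [Subtype.ext (Sum.inr_injective h2)]
  have hclpos : ∀ i, 0 < cl i := by
    rintro (e | q)
    · exact hcolpos e.1 e.2
    · exact ((hP q.1).1 q.2).2.1
  have hdiag : ∀ i, ¬ (ed i).IsDiag := by
    rintro (e | q)
    · change ¬ (Sym2.map (Sum.inl : W → W ⊕ W × ℕ) e.1).IsDiag
      rw [Sym2.isDiag_map Sum.inl_injective]
      exact SimpleGraph.not_isDiag_of_mem_edgeSet _ (SimpleGraph.mem_edgeFinset.1 e.2)
    · change ¬ (s((Sum.inl q.1.1 : W ⊕ W × ℕ), Sum.inr q.1)).IsDiag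
      rw [Sym2.mk_isDiag_iff]
      exact Sum.inl_ne_inr
  have hprop : ∀ i j, cl i = cl j → ∀ v, v ∈ ed i → v ∈ ed j → i = j := by
    rintro (e | q) (f | r) hc v hv1 hv2
    · rw [Subtype.ext (hcolinj e.1 e.2 f.1 f.2 hc)]
    · exfalso
      obtain ⟨x, hx, rfl⟩ := (mem1 e _).1 hv1
      rcases (mem2 r _).1 hv2 with h2 | h2
      · have h3 : x = r.1.1 := Sum.inl_injective h2
        rw [h3] at hx
        exact ((hP r.1).1 r.2).2.2.2 e.1 e.2 hx hc
      · exact Sum.inl_ne_inr h2
    · exfalso
      obtain ⟨x, hx, rfl⟩ := (mem1 f _).1 hv2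
      rcases (mem2 q _).1 hv1 with h2 | h2
      · have h3 : x = q.1.1 := Sum.inl_injective h2
        rw [h3] at hx
        exact ((hP q.1).1 q.2).2.2.2 f.1 f.2 hx hc.symm
      · exact Sum.inl_ne_inr h2
    · have hc' : q.1.2 = r.1.2 := hc
      rcases (mem2 q _).1 hv1 with h1 | h1 <;> rcases (mem2 r _).1 hv2 with h2 | h2
      · have h3 : q.1.1 = r.1.1 := Sum.inl_injective (h1.symm.trans h2)
        rw [Subtype.ext (Prod.ext h3 hc')]
      · exact absurd (h1.symm.trans h2) Sum.inl_ne_inr
      · exact absurd (h1.symm.trans h2) Sum.inr_ne_inl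
      · rw [Subtype.ext (Sum.inr_injective (h1.symm.trans h2))]
  have hsee : ∀ x ∈ S, ∀ m, 0 < m → m ≤ D x → ∃ j, cl j = m ∧ Sum.inl x ∈ ed j := by
    intro x hx m hm hmD
    by_cases h : ∃ f ∈ E, x ∈ f ∧ col f = m
    · obtain ⟨f, hf, hxf, hfm⟩ := h
      exact ⟨Sum.inl ⟨f, hf⟩, hfm, (mem1 _ _).2 ⟨x, hxf, rfl⟩⟩
    · have hq : (x, m) ∈ P := by
        rw [hP]
        refine ⟨hx, hm, hmD, ?_⟩
        intro e he hxe hce
        exact h ⟨e, he, hxe, hce⟩
      exact ⟨Sum.inr ⟨(x, m), hq⟩, rfl, (mem2 _ _).2 (Or.inl rfl)⟩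
  have hff : ∀ i m, 0 < m → m < cl i → ∃ j, cl j = m ∧ ∃ v, v ∈ ed i ∧ v ∈ ed j := by
    rintro (e | q) m hm hmi
    · obtain ⟨h1, h2⟩ := haE e.1 e.2
      have h3 : m ≤ D (a e.1) := by
        have := hcolD e.1 e.2
        have h4 : m < col e.1 := hmi
        omega
      obtain ⟨j, hj, hj2⟩ := hsee _ h1 m hm h3
      exact ⟨j, hj, _, (mem1 _ _).2 ⟨_, h2, rfl⟩, hj2⟩
    · obtain ⟨h1, h2, h3, -⟩ := (hP q.1).1 q.2
      have h4 : m < q.1.2 := hmi
      obtain ⟨j, hj, hj2⟩ := hsee _ h1 m hm (by omega)
      exact ⟨j, hj, _, (mem2 _ _).2 (Or.inl rfl), hj2⟩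
  obtain ⟨g, c, hg, hreach, hc⟩ := reach_of_index ed hed cl hclpos hdiag hprop hff
  refine ⟨_, c, hreach, ?_, ?_⟩
  · -- the rainbow copy
    have hcE : ∀ e ∈ E, c (e.map (fun x => g (Sum.inl x))) = col e := by
      intro e he
      have h1 := hc (Sum.inl ⟨e, he⟩)
      have h2 : (ed (Sum.inl ⟨e, he⟩)).map g = e.map (fun x => g (Sum.inl x)) := by
        change Sym2.map g (Sym2.map Sum.inl e) = _
        rw [Sym2.map_map]
        rfl
      rw [h2] at h1
      exact h1
    refine ⟨fun x => g (Sum.inl x), hg.comp Sum.inl_injective, ?_, ?_⟩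
    · intro e he
      have he' : e ∈ E := SimpleGraph.mem_edgeFinset.2 he
      rw [hcE e he']
      exact (hcolpos e he').ne'
    · intro e he f hf hef
      have he' : e ∈ E := SimpleGraph.mem_edgeFinset.2 he
      have hf' : f ∈ E := SimpleGraph.mem_edgeFinset.2 hf
      rw [hcE e he', hcE f hf'] at hef
      exact hcolinj e he' f hf' hef
  · -- counting
    have h1 : Fintype.card (E ⊕ P) ≤ ∑ x ∈ S, D x := by
      have h2 : (S.sigma (fun x => Finset.Icc 1 (D x))).card = ∑ x ∈ S, D x := by
        rw [Finset.card_sigma]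
        apply Finset.sum_congr rfl
        intro x _
        simp
      rw [← h2, ← Finset.card_univ]
      refine Finset.card_le_card_of_injOn (fun i => (⟨Sum.elim (fun e => a e.1) (fun q => q.1.1) i,
        cl i⟩ : Sigma (fun _ : W => ℕ))) ?_ ?_
      · rintro (e | q) -
        · have h3 := haE e.1 e.2
          have h4 := hcolpos e.1 e.2
          have h5 := hcolD e.1 e.2
          simp only [Finset.coe_sigma, Set.mem_sigma_iff, Finset.mem_coe, Finset.mem_Icc]
          exact ⟨h3.1, h4, h5⟩
        · obtain ⟨h3, h4, h5, -⟩ := (hP q.1).1 q.2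
          simp only [Finset.coe_sigma, Set.mem_sigma_iff, Finset.mem_coe, Finset.mem_Icc]
          exact ⟨h3, h4, h5⟩
      · rintro (e | q) - (f | r) - h
        · have h3 : col e.1 = col f.1 := by
            simpa [cl] using (Sigma.mk.inj_iff.1 h).2
          rw [Subtype.ext (hcolinj e.1 e.2 f.1 f.2 h3)]
        · exfalso
          have h3 : a e.1 = r.1.1 := (Sigma.mk.inj_iff.1 h).1
          have h4 : col e.1 = r.1.2 := by simpa [cl] using (Sigma.mk.inj_iff.1 h).2
          have h5 := (haE e.1 e.2).2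
          rw [h3] at h5
          exact ((hP r.1).1 r.2).2.2.2 e.1 e.2 h5 h4
        · exfalso
          have h3 : q.1.1 = a f.1 := (Sigma.mk.inj_iff.1 h).1
          have h4 : q.1.2 = col f.1 := by simpa [cl] using (Sigma.mk.inj_iff.1 h).2
          have h5 := (haE f.1 f.2).2
          rw [← h3] at h5
          exact ((hP q.1).1 q.2).2.2.2 f.1 f.2 h5 h4.symm
        · have h3 : q.1.1 = r.1.1 := (Sigma.mk.inj_iff.1 h).1
          have h4 : q.1.2 = r.1.2 := by simpa [cl] using (Sigma.mk.inj_iff.1 h).2
          rw [Subtype.ext (Prod.ext h3 h4)]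
    have h3 : ∀ x ∈ S, D x = ∑ y ∈ S, (if pos y ≤ pos x then d y else 0) := by
      intro x _
      have h4 : (E.filter (fun f => pos (a f) ≤ pos x)).card =
          ∑ y ∈ S, ((E.filter (fun f => pos (a f) ≤ pos x)).filter (fun f => a f = y)).card :=
        Finset.card_eq_sum_card_fiberwise (fun f hf =>
          (haE f (Finset.mem_filter.1 hf).1).1)
      change (E.filter (fun f => pos (a f) ≤ pos x)).card = _
      rw [h4]
      apply Finset.sum_congr rfl
      intro y _
      split_ifs with h5
      · change _ = (E.filter (fun e => a e = y)).card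
        congr 1
        ext f
        simp only [Finset.mem_filter]
        constructor
        · rintro ⟨⟨h6, -⟩, h7⟩; exact ⟨h6, h7⟩
        · rintro ⟨h6, h7⟩; exact ⟨⟨h6, by rw [h7]; exact h5⟩, h7⟩
      · rw [Finset.card_eq_zero]
        apply Finset.filter_eq_empty_iff.2
        intro f hf h7
        rw [Finset.mem_filter] at hf
        rw [h7] at hf
        exact h5 hf.2
    have h4 : ∑ y ∈ S, d y = E.card :=
      (Finset.card_eq_sum_card_fiberwise (fun f hf => (haE f hf).1)).symm
    have h5 := double_sum S d pos hposinj hposmono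
    rw [h4, ← Finset.sum_congr rfl h3] at h5
    have h6 : H.edgeSet.ncard = E.card := by
      rw [← SimpleGraph.coe_edgeFinset, Set.ncard_coe_finset]
    rw [h6]
    exact (Nat.mul_le_mul_left 2 h1).trans h5

/-- For every finite graph `H` with vertex cover number `τ` and `k` edges, Builder can force a
rainbow copy of `H` after `AR_FF(H)` edges, and `AR_FF(H) ≤ (τ + 1) k / 2`. -/
theorem result {W : Type u} [Finite W] (H : SimpleGraph W) :
    (∃ c, Reach (ARFF H) c ∧ HasRainbowCopy H c) ∧
      2 * (ARFF H : ℕ∞) ≤ (H.vertexCoverNum + 1) * H.edgeSet.encard := by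
  classical
  have := Fintype.ofFinite W
  obtain ⟨S, hS1, hS2⟩ := H.vertexCoverNum_exists
  have hSfin : S.Finite := Set.toFinite S
  obtain ⟨t, c, h1, h2, h3⟩ := construction H hSfin.toFinset
    (by rw [hSfin.coe_toFinset]; exact hS2)
  have hmem : t ∈ {t | ∃ c, Reach t c ∧ HasRainbowCopy H c} := ⟨c, h1, h2⟩
  refine ⟨Nat.sInf_mem ⟨t, hmem⟩, ?_⟩
  have h4 : ARFF H ≤ t := Nat.sInf_le hmem
  have h5 : H.edgeSet.encard = (H.edgeSet.ncard : ℕ∞) :=
    (Set.Finite.cast_ncard_eq (Set.toFinite _)).symm
  have h6 : H.vertexCoverNum = (hSfin.toFinset.card : ℕ∞) := by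
    rw [← hS1, hSfin.encard_eq_coe_toFinset_card]
  rw [h5, h6]
  have h7 : 2 * ARFF H ≤ (hSfin.toFinset.card + 1) * H.edgeSet.ncard := by omega
  exact_mod_cast h7

end Pool.Agent.Results.MP_071c0d_co.HalvedBound
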